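import Mathlib

/-!
Fractional form of the Aharoni–Zerbib conjecture: in an `r`-graph every fractional matching
(with respect to the `(r-1)`-sets) has weight at most `(r+1)/2` times the largest number of
edges pairwise meeting in fewer than `r-1` vertices.

Method: a random maximum matching `M` with `P(M)` proportional to the product of the weights.
-/

set_option autoImplicit false

namespace Pool.Agent.W795.AZ

open Finset

variable {V : Type*} [DecidableEq V]

/-- Any two distinct members meet in fewer than `m` vertices. -/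
def IsPacking (m : ℕ) (M : Finset (Finset V)) : Prop :=
  ∀ e ∈ M, ∀ f ∈ M, e ≠ f → (e ∩ f).card < m

/-- number of common `k`-subsets -/
def cc (k : ℕ) (e f : Finset V) : ℕ := ((e ∩ f).powersetCard k).card

lemma cc_self {r : ℕ} (hr : 2 ≤ r) {e : Finset V} (he : e.card = r) : cc (r - 1) e e = r := by
  unfold cc
  rw [inter_self, card_powersetCard, he]
  obtain ⟨k, rfl⟩ : ∃ k, r = k + 1 := ⟨r - 1, by omega⟩
  simp

lemma inter_card_eq {r : ℕ} {e f : Finset V} (he : e.card = r) (hf : f.card = r)
    (hne : e ≠ f) (h : r - 1 ≤ (e ∩ f).card) : (e ∩ f).card = r - 1 := by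
  have h1 : (e ∩ f).card < r := by
    by_contra hcon
    push Not at hcon
    have h2 : e ∩ f = e := eq_of_subset_of_card_le inter_subset_left (by omega)
    have h3 : e ∩ f = f := eq_of_subset_of_card_le inter_subset_right (by omega)
    exact hne (h2.symm.trans h3)
  omega

lemma cc_eq_one {r : ℕ} {e f : Finset V} (he : e.card = r) (hf : f.card = r)
    (hne : e ≠ f) (h : r - 1 ≤ (e ∩ f).card) : cc (r - 1) e f = 1 := by
  unfold cc
  rw [card_powersetCard, inter_card_eq he hf hne h, Nat.choose_self]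

lemma sum_cc_le {r : ℕ} (hr : 2 ≤ r) (H : Finset (Finset V)) (y : Finset V → ℝ)
    (hg : ∀ g : Finset V, g.card = r - 1 → ∑ e ∈ H with g ⊆ e, y e ≤ 1)
    {f : Finset V} (hf : f.card = r) :
    ∑ e ∈ H, y e * (cc (r - 1) e f : ℝ) ≤ r := by
  have h1 : ∀ e : Finset V, (e ∩ f).powersetCard (r - 1)
      = (f.powersetCard (r - 1)).filter (fun g => g ⊆ e) := by
    intro e
    ext g
    simp only [mem_powersetCard, mem_filter, subset_inter_iff]
    tauto
  have h2 : ∀ e ∈ H, y e * (cc (r - 1) e f : ℝ)
      = ∑ g ∈ f.powersetCard (r - 1), if g ⊆ e then y e else 0 := by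
    intro e _
    unfold cc
    rw [h1 e, ← sum_filter, sum_const, nsmul_eq_mul, mul_comm]
  rw [sum_congr rfl h2, sum_comm]
  have h3 : ∀ g ∈ f.powersetCard (r - 1), ∑ e ∈ H, (if g ⊆ e then y e else 0) ≤ (1 : ℝ) := by
    intro g hgf
    rw [← sum_filter]
    exact hg g (mem_powersetCard.1 hgf).2
  refine (sum_le_sum h3).trans ?_
  rw [sum_const, nsmul_eq_mul, mul_one, card_powersetCard, hf]
  obtain ⟨k, rfl⟩ : ∃ k, r = k + 1 := ⟨r - 1, by omega⟩
  simp

/-- a clique is a star or has at most `r+1` members -/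
lemma clique_cases {r : ℕ} (hr : 2 ≤ r) (K : Finset (Finset V)) (hK : ∀ e ∈ K, e.card = r)
    (hcl : ∀ e ∈ K, ∀ f ∈ K, e ≠ f → (e ∩ f).card = r - 1) :
    (∃ g : Finset V, g.card = r - 1 ∧ ∀ e ∈ K, g ⊆ e) ∨ K.card ≤ r + 1 := by
  by_cases h1 : K.card ≤ 1
  · right; omega
  push Not at h1
  obtain ⟨e₁, he₁, e₂, he₂, hne⟩ := one_lt_card.1 h1
  have hg := hcl e₁ he₁ e₂ he₂ hne
  by_cases hst : ∀ e ∈ K, e₁ ∩ e₂ ⊆ e
  · exact Or.inl ⟨e₁ ∩ e₂, hg, hst⟩
  · right
    push Not at hst
    obtain ⟨f, hf, hfg⟩ := hst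
    have hfe₁ : f ≠ e₁ := by rintro rfl; exact hfg inter_subset_left
    have hfe₂ : f ≠ e₂ := by rintro rfl; exact hfg inter_subset_right
    have hall : ∀ h ∈ K, h ⊆ e₁ ∪ e₂ := by
      -- the triple intersection has at most r-2 elements
      have htri : (e₁ ∩ e₂ ∩ f).card < r - 1 := by
        by_contra hcon
        push Not at hcon
        have : e₁ ∩ e₂ ∩ f = e₁ ∩ e₂ := eq_of_subset_of_card_le inter_subset_left (by omega)
        exact hfg (this ▸ inter_subset_right)
      have key : ∀ h ∈ K, ∀ a b : Finset V, a ∈ K → b ∈ K → h ≠ a → h ≠ b →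
          ¬ h ⊆ a ∪ b → h ∩ a = h ∩ b := by
        intro h hh a b ha hb hha hhb hns
        have c1 := hcl h hh a ha hha
        have c2 := hcl h hh b hb hhb
        have c3 : (h ∩ (a ∪ b)).card ≤ r - 1 := by
          have : (h ∩ (a ∪ b)).card < h.card := by
            apply card_lt_card
            refine ⟨inter_subset_left, fun hc => hns fun x hx => ?_⟩
            exact (mem_inter.1 (hc hx)).2
          have := hK h hh
          omega
        have d1 : h ∩ a = h ∩ (a ∪ b) :=
          eq_of_subset_of_card_le (inter_subset_inter_left subset_union_left) (by omega)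
        have d2 : h ∩ b = h ∩ (a ∪ b) :=
          eq_of_subset_of_card_le (inter_subset_inter_left subset_union_right) (by omega)
        rw [d1, d2]
      have hfsub : f ⊆ e₁ ∪ e₂ := by
        by_contra hns
        have e := key f hf e₁ e₂ he₁ he₂ hfe₁ hfe₂ hns
        have c1 := hcl f hf e₁ he₁ hfe₁
        have : f ∩ e₁ ⊆ e₁ ∩ e₂ ∩ f := by
          intro x hx
          have hx2 : x ∈ f ∩ e₂ := e ▸ hx
          simp only [mem_inter] at hx hx2 ⊢
          tauto
        have := card_le_card this
        omega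
      intro h hh
      by_contra hns
      have hhe₁ : h ≠ e₁ := by rintro rfl; exact hns subset_union_left
      have hhe₂ : h ≠ e₂ := by rintro rfl; exact hns subset_union_right
      have hhf : h ≠ f := by rintro rfl; exact hns hfsub
      have e := key h hh e₁ e₂ he₁ he₂ hhe₁ hhe₂ hns
      have hns' : ¬ h ⊆ e₁ ∪ f := fun hc => hns (hc.trans (union_subset subset_union_left hfsub))
      have e' := key h hh e₁ f he₁ hf hhe₁ hhf hns'
      have c1 := hcl h hh e₁ he₁ hhe₁
      have : h ∩ e₁ ⊆ e₁ ∩ e₂ ∩ f := by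
        intro x hx
        have hx2 : x ∈ h ∩ e₂ := e ▸ hx
        have hx3 : x ∈ h ∩ f := e' ▸ hx
        simp only [mem_inter] at hx hx2 hx3 ⊢
        tauto
      have := card_le_card this
      omega
    have hsub : K ⊆ (e₁ ∪ e₂).powersetCard r := by
      intro h hh
      exact mem_powersetCard.2 ⟨hall h hh, hK h hh⟩
    have hcard := card_le_card hsub
    have hu : (e₁ ∪ e₂).card = r + 1 := by
      have := card_union_add_card_inter e₁ e₂
      have := hK e₁ he₁
      have := hK e₂ he₂
      omega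
    rw [card_powersetCard, hu] at hcard
    simpa using hcard

/-- the quadratic inequality for cliques -/
lemma clique_ineq {r : ℕ} (hr : 2 ≤ r) (K : Finset (Finset V)) (hK : ∀ e ∈ K, e.card = r)
    (hcl : ∀ e ∈ K, ∀ f ∈ K, e ≠ f → (e ∩ f).card = r - 1)
    (y : Finset V → ℝ) (hy : ∀ e ∈ K, 0 ≤ y e)
    (hg : ∀ g : Finset V, g.card = r - 1 → ∑ e ∈ K with g ⊆ e, y e ≤ 1) :
    ∑ u ∈ K, ∑ e ∈ K, y u * y e * (2 - (cc (r - 1) e u : ℝ)) ≤ ∑ u ∈ K, y u := by
  set s := ∑ u ∈ K, y u with hs
  set q := ∑ u ∈ K, y u ^ 2 with hq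
  have hs0 : 0 ≤ s := sum_nonneg hy
  have hq0 : 0 ≤ q := sum_nonneg fun u _ => sq_nonneg _
  have hr' : (2 : ℝ) ≤ r := by exact_mod_cast hr
  -- evaluate the left side
  have hL : ∑ u ∈ K, ∑ e ∈ K, y u * y e * (2 - (cc (r - 1) e u : ℝ)) = s ^ 2 - (r - 1) * q := by
    have h1 : ∀ u ∈ K, ∑ e ∈ K, y u * y e * (2 - (cc (r - 1) e u : ℝ))
        = y u * s - (r - 1) * y u ^ 2 := by
      intro u hu
      have h2 : ∀ e ∈ K, y u * y e * (2 - (cc (r - 1) e u : ℝ))
          = y u * y e + (if e = u then -((r - 1) * y u ^ 2) else 0) := by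
        intro e he
        by_cases heu : e = u
        · subst heu
          rw [cc_self hr (hK e he)]
          simp only [if_true]
          ring
        · rw [cc_eq_one (hK e he) (hK u hu) heu (by rw [hcl e he u hu heu])]
          simp only [heu, if_false, Nat.cast_one]
          ring
      rw [sum_congr rfl h2, sum_add_distrib, ← mul_sum, sum_ite_eq' K u, if_pos hu]
      ring
    rw [sum_congr rfl h1, sum_sub_distrib, ← sum_mul, ← mul_sum]
    ring
  rw [hL]
  rcases clique_cases hr K hK hcl with ⟨g, hgc, hgs⟩ | hcard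
  · have h1 : s ≤ 1 := by
      have := hg g hgc
      rwa [filter_true_of_mem hgs] at this
    nlinarith
  · by_cases h1 : K.card ≤ 1
    · rcases Nat.le_one_iff_eq_zero_or_eq_one.1 h1 with h0 | h0
      · have : K = ∅ := card_eq_zero.1 h0
        subst this
        simp at hs hq
        rw [hs, hq]; simp
      · obtain ⟨e, he⟩ := card_eq_one.1 h0
        have hse : s = y e := by rw [hs, he]; simp
        have hqe : q = y e ^ 2 := by rw [hq, he]; simp
        have heK : e ∈ K := by rw [he]; simp
        rw [hse, hqe]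
        have h2 := hy e heK
        nlinarith [sq_nonneg (y e)]
    · push Not at h1
      -- pair sums
      have hpair : ∀ e ∈ K, ∀ f ∈ K, e ≠ f → y e + y f ≤ 1 := by
        intro e he f hf hef
        have h2 := hg (e ∩ f) (hcl e he f hf hef)
        have h3 : ({e, f} : Finset (Finset V)) ⊆ K.filter (fun h => e ∩ f ⊆ h) := by
          intro h hh
          rcases mem_insert.1 hh with rfl | hh
          · exact mem_filter.2 ⟨he, inter_subset_left⟩
          · rw [mem_singleton.1 hh]
            exact mem_filter.2 ⟨hf, inter_subset_right⟩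
        have h4 : ∑ h ∈ ({e, f} : Finset (Finset V)), y h ≤ ∑ h ∈ K with e ∩ f ⊆ h, y h :=
          sum_le_sum_of_subset_of_nonneg h3 fun i hi _ => hy i (mem_filter.1 hi).1
        rw [sum_pair hef] at h4
        linarith
      have hn : (2 : ℝ) ≤ K.card := by exact_mod_cast h1
      have hnr : (K.card : ℝ) ≤ r + 1 := by exact_mod_cast hcard
      have hsn : 2 * s ≤ K.card := by
        have h2 : ∑ e ∈ K, ∑ f ∈ K.erase e, (y e + y f) ≤ ∑ e ∈ K, ∑ f ∈ K.erase e, (1 : ℝ) :=
          sum_le_sum fun e he => sum_le_sum fun f hf =>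
            hpair e he f (mem_of_mem_erase hf) (ne_of_mem_erase hf).symm
        have h3 : ∀ e ∈ K, ∑ f ∈ K.erase e, (y e + y f) = ((K.card : ℝ) - 2) * y e + s := by
          intro e he
          have h4 : ∑ f ∈ K.erase e, y f = s - y e := by
            rw [hs, ← add_sum_erase K y he]; ring
          rw [sum_add_distrib, h4, sum_const, nsmul_eq_mul, card_erase_of_mem he,
            Nat.cast_sub (by omega)]
          push_cast
          ring
        have h5 : ∀ e ∈ K, ∑ f ∈ K.erase e, (1 : ℝ) = (K.card : ℝ) - 1 := by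
          intro e he
          rw [sum_const, nsmul_eq_mul, card_erase_of_mem he, Nat.cast_sub (by omega)]
          push_cast
          ring
        rw [sum_congr rfl h3, sum_congr rfl h5, sum_add_distrib, ← mul_sum, sum_const,
          sum_const, nsmul_eq_mul, nsmul_eq_mul, ← hs] at h2
        have h6 : 2 * ((K.card : ℝ) - 1) * s ≤ K.card * ((K.card : ℝ) - 1) := by linarith
        have h7 : (0 : ℝ) < (K.card : ℝ) - 1 := by linarith
        nlinarith
      have hcs : s ^ 2 ≤ K.card * q := by
        have := sq_sum_le_card_mul_sum_sq (s := K) (f := y)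
        rw [hs, hq]
        exact_mod_cast this
      have hcs' : s ^ 2 ≤ (r + 1) * q := by nlinarith
      -- s^2 - (r-1) q ≤ 2 s^2/(r+1) ≤ s
      have h8 : 2 * s ≤ r + 1 := by linarith
      have h9 : (r + 1) * (s ^ 2 - (r - 1) * q) ≤ (r + 1) * s := by nlinarith
      have h10 : (0 : ℝ) < r + 1 := by linarith
      exact le_of_mul_le_mul_left h9 h10

end Pool.Agent.W795.AZ
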