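import Pool.Agent.W795.AZ.Core

set_option autoImplicit false

namespace Pool.Agent.W795.AZ

open Finset

variable {V : Type*} [DecidableEq V]

section

variable (m n : ℕ) (H : Finset (Finset V))

/-- packings with exactly `n` members -/
noncomputable def Mx : Finset (Finset (Finset V)) :=
  haveI := Classical.decPred (fun M : Finset (Finset V) => IsPacking m M ∧ M.card = n)
  H.powerset.filter (fun M => IsPacking m M ∧ M.card = n)

lemma mem_Mx {M : Finset (Finset V)} : M ∈ Mx m n H ↔ M ⊆ H ∧ IsPacking m M ∧ M.card = n := by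
  unfold Mx
  simp only [mem_filter, mem_powerset]

/-- the edges that complete `M'` to a packing with `n` members -/
noncomputable def Kx (M' : Finset (Finset V)) : Finset (Finset V) :=
  haveI := Classical.decPred (fun u : Finset V => u ∉ M' ∧ insert u M' ∈ Mx m n H)
  H.filter (fun u => u ∉ M' ∧ insert u M' ∈ Mx m n H)

lemma mem_Kx {M' : Finset (Finset V)} {u : Finset V} :
    u ∈ Kx m n H M' ↔ u ∈ H ∧ u ∉ M' ∧ insert u M' ∈ Mx m n H := by
  unfold Kx
  simp only [mem_filter]

lemma reindex (G : Finset (Finset V) → Finset V → ℝ) :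
    ∑ M ∈ Mx m n H, ∑ u ∈ M, G (M.erase u) u = ∑ M' ∈ H.powerset, ∑ u ∈ Kx m n H M', G M' u := by
  rw [sum_sigma', sum_sigma']
  refine sum_bij' (fun p _ => ⟨p.1.erase p.2, p.2⟩) (fun p _ => ⟨insert p.2 p.1, p.2⟩) ?_ ?_ ?_ ?_ ?_
  · rintro ⟨M, u⟩ h
    rw [mem_sigma] at h
    obtain ⟨hM, hu⟩ := h
    simp only at hM hu
    have hM' := (mem_Mx m n H).1 hM
    rw [mem_sigma]
    refine ⟨mem_powerset.2 ((erase_subset _ _).trans hM'.1), ?_⟩
    simp only
    rw [mem_Kx, insert_erase hu]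
    exact ⟨hM'.1 hu, notMem_erase _ _, hM⟩
  · rintro ⟨M', u⟩ h
    rw [mem_sigma] at h
    obtain ⟨hM, hu⟩ := h
    simp only at hM hu
    rw [mem_Kx] at hu
    rw [mem_sigma]
    exact ⟨hu.2.2, mem_insert_self _ _⟩
  · rintro ⟨M, u⟩ h
    rw [mem_sigma] at h
    simp only at h
    simp only [insert_erase h.2]
  · rintro ⟨M', u⟩ h
    rw [mem_sigma] at h
    obtain ⟨hM, hu⟩ := h
    simp only at hM hu
    rw [mem_Kx] at hu
    simp only [erase_insert hu.2.1]
  · rintro ⟨M, u⟩ h
    rfl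

end

lemma conf_of_not {r : ℕ} (hr : 2 ≤ r) {H : Finset (Finset V)} (hH : ∀ e ∈ H, e.card = r)
    {n : ℕ} (hmax : ∀ M ⊆ H, IsPacking (r - 1) M → M.card ≤ n)
    {M' : Finset (Finset V)} {e u : Finset V} (he : e ∈ Kx (r - 1) n H M')
    (hu : u ∈ Kx (r - 1) n H M') (hne : e ≠ u) : (e ∩ u).card = r - 1 := by
  rw [mem_Kx, mem_Mx] at he hu
  by_contra hcon
  have hlt : (e ∩ u).card < r - 1 := by
    by_contra h
    push Not at h
    exact hcon (inter_card_eq (hH e he.1) (hH u hu.1) hne h)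
  have hlt' : (u ∩ e).card < r - 1 := by rwa [inter_comm]
  have hp : IsPacking (r - 1) (insert e (insert u M')) := by
    intro a ha b hb hab
    rw [mem_insert] at ha hb
    rcases ha with rfl | ha
    · rcases hb with rfl | hb
      · exact absurd rfl hab
      · rw [mem_insert] at hb
        rcases hb with rfl | hb
        · exact hlt
        · exact he.2.2.2.1 a (mem_insert_self _ _) b (mem_insert_of_mem hb) hab
    · rcases hb with rfl | hb
      · rw [mem_insert] at ha
        rcases ha with rfl | ha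
        · exact hlt'
        · exact he.2.2.2.1 a (mem_insert_of_mem ha) b (mem_insert_self _ _) hab
      · exact hu.2.2.2.1 a ha b hb hab
  have hsub : insert e (insert u M') ⊆ H := insert_subset he.1 hu.2.2.1
  have h1 := hmax _ hsub hp
  rw [card_insert_of_notMem (by
    rw [mem_insert]; push Not; exact ⟨hne, he.2.1⟩), hu.2.2.2.2] at h1
  omega

/-- lower bound for the number of facets of `e` used by the packing `M` -/
lemma lower {r : ℕ} (hr : 2 ≤ r) {H : Finset (Finset V)} (hH : ∀ e ∈ H, e.card = r)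
    {n : ℕ} (hmax : ∀ M ⊆ H, IsPacking (r - 1) M → M.card ≤ n)
    {M : Finset (Finset V)} (hM : M ∈ Mx (r - 1) n H) {e : Finset V} (he : e ∈ H) :
    (2 : ℝ) - ∑ u ∈ M, (if e ∈ Kx (r - 1) n H (M.erase u) then 2 - (cc (r - 1) e u : ℝ) else 0)
      ≤ ∑ f ∈ M, (cc (r - 1) e f : ℝ) := by
  have hM' := (mem_Mx (r - 1) n H).1 hM
  set A := M.filter (fun f => r - 1 ≤ (e ∩ f).card) with hA
  have hpos : ∀ f ∈ A, (1 : ℝ) ≤ (cc (r - 1) e f : ℝ) := by
    intro f hf
    rw [hA, mem_filter] at hf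
    by_cases hef : e = f
    · subst hef
      rw [cc_self hr (hH e he)]
      have : 1 ≤ r := by omega
      exact_mod_cast this
    · rw [cc_eq_one (hH e he) (hH f (hM'.1 hf.1)) hef hf.2]
      simp
  have hAM : A ⊆ M := filter_subset _ _
  have hsumA : ∑ f ∈ A, (cc (r - 1) e f : ℝ) ≤ ∑ f ∈ M, (cc (r - 1) e f : ℝ) :=
    sum_le_sum_of_subset_of_nonneg hAM fun i _ _ => Nat.cast_nonneg _
  have hself : e ∈ M → e ∈ A := by
    intro h
    rw [hA, mem_filter, inter_self, hH e he]
    exact ⟨h, by omega⟩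
  -- membership in `Kx` forces that no other member of `M` conflicts with `e`
  have hK : ∀ u ∈ M, e ∈ Kx (r - 1) n H (M.erase u) → A ⊆ {u} := by
    intro u hu hk f hf
    rw [mem_singleton]
    by_contra hfu
    rw [mem_Kx, mem_Mx] at hk
    rw [hA, mem_filter] at hf
    have hfm : f ∈ M.erase u := mem_erase.2 ⟨hfu, hf.1⟩
    have hef : e ≠ f := by
      rintro rfl
      exact hk.2.1 hfm
    have := hk.2.2.2.1 e (mem_insert_self _ _) f (mem_insert_of_mem hfm) hef
    omega
  have hAne : A.Nonempty := by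
    by_contra hemp
    rw [not_nonempty_iff_eq_empty] at hemp
    have heM : e ∉ M := fun h => by
      have := hself h
      rw [hemp] at this
      simp at this
    have hno : ∀ f ∈ M, (e ∩ f).card < r - 1 := by
      intro f hf
      by_contra h
      push Not at h
      have : f ∈ A := by rw [hA, mem_filter]; exact ⟨hf, h⟩
      rw [hemp] at this
      simp at this
    have hp : IsPacking (r - 1) (insert e M) := by
      intro a ha b hb hab
      rw [mem_insert] at ha hb
      rcases ha with rfl | ha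
      · rcases hb with rfl | hb
        · exact absurd rfl hab
        · exact hno b hb
      · rcases hb with rfl | hb
        · rw [inter_comm]; exact hno a ha
        · exact hM'.2.1 a ha b hb hab
    have := hmax _ (insert_subset he hM'.1) hp
    rw [card_insert_of_notMem heM, hM'.2.2] at this
    omega
  by_cases h2 : 2 ≤ A.card
  · have hz : ∑ u ∈ M, (if e ∈ Kx (r - 1) n H (M.erase u) then 2 - (cc (r - 1) e u : ℝ) else 0)
        = 0 := by
      apply sum_eq_zero
      intro u hu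
      rw [if_neg]
      intro hk
      have := card_le_card (hK u hu hk)
      rw [card_singleton] at this
      omega
    rw [hz, sub_zero]
    refine le_trans ?_ hsumA
    have h3 : ∑ f ∈ A, (1 : ℝ) ≤ ∑ f ∈ A, (cc (r - 1) e f : ℝ) := sum_le_sum hpos
    rw [sum_const, nsmul_eq_mul, mul_one] at h3
    have : (2 : ℝ) ≤ A.card := by exact_mod_cast h2
    linarith
  · obtain ⟨f₀, hf₀⟩ : ∃ f₀, A = {f₀} := by
      apply card_eq_one.1
      have := hAne.card_pos
      omega
    have hf₀A : f₀ ∈ A := by rw [hf₀]; simp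
    have hf₀M : f₀ ∈ M := hAM hf₀A
    have hin : e ∈ Kx (r - 1) n H (M.erase f₀) := by
      rw [mem_Kx, mem_Mx]
      have heM : e ∉ M.erase f₀ := by
        intro h
        have h1 := hself (mem_of_mem_erase h)
        rw [hf₀, mem_singleton] at h1
        exact (ne_of_mem_erase h) h1
      have hno : ∀ f ∈ M.erase f₀, (e ∩ f).card < r - 1 := by
        intro f hf
        by_contra h
        push Not at h
        have h1 : f ∈ A := by rw [hA, mem_filter]; exact ⟨mem_of_mem_erase hf, h⟩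
        rw [hf₀, mem_singleton] at h1
        exact (ne_of_mem_erase hf) h1
      refine ⟨he, heM, insert_subset he ((erase_subset _ _).trans hM'.1), ?_, ?_⟩
      · intro a ha b hb hab
        rw [mem_insert] at ha hb
        rcases ha with rfl | ha
        · rcases hb with rfl | hb
          · exact absurd rfl hab
          · exact hno b hb
        · rcases hb with rfl | hb
          · rw [inter_comm]; exact hno a ha
          · exact hM'.2.1 a (mem_of_mem_erase ha) b (mem_of_mem_erase hb) hab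
      · rw [card_insert_of_notMem heM, card_erase_of_mem hf₀M, hM'.2.2]
        have : 0 < M.card := card_pos.2 ⟨f₀, hf₀M⟩
        omega
    have hs : ∑ u ∈ M, (if e ∈ Kx (r - 1) n H (M.erase u) then 2 - (cc (r - 1) e u : ℝ) else 0)
        = 2 - (cc (r - 1) e f₀ : ℝ) := by
      rw [sum_eq_single f₀, if_pos hin]
      · intro u hu hne
        rw [if_neg]
        intro hk
        have h1 := hK u hu hk hf₀A
        rw [mem_singleton] at h1
        exact hne h1.symm
      · intro h
        exact absurd hf₀M h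
    rw [hs]
    rw [hf₀, sum_singleton] at hsumA
    linarith

lemma exists_max_packing (m : ℕ) (H : Finset (Finset V)) :
    ∃ M₀ ⊆ H, IsPacking m M₀ ∧ ∀ M ⊆ H, IsPacking m M → M.card ≤ M₀.card := by
  classical
  obtain ⟨M₀, hM₀, hM₀max⟩ : ∃ M₀ ∈ H.powerset.filter (IsPacking m),
      ∀ M ∈ H.powerset.filter (IsPacking m), M.card ≤ M₀.card := by
    apply exists_max_image
    exact ⟨∅, by
      rw [mem_filter]
      exact ⟨empty_mem_powerset _, fun e he => by simp at he⟩⟩
  rw [mem_filter, mem_powerset] at hM₀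
  exact ⟨M₀, hM₀.1, hM₀.2, fun M h1 h2 => hM₀max M (mem_filter.2 ⟨mem_powerset.2 h1, h2⟩)⟩

theorem core {r : ℕ} (hr : 2 ≤ r) (H : Finset (Finset V)) (hH : ∀ e ∈ H, e.card = r)
    (ν : ℕ) (hν : ∀ M ⊆ H, IsPacking (r - 1) M → M.card ≤ ν)
    (y : Finset V → ℝ) (hy : ∀ e ∈ H, 0 < y e)
    (hg : ∀ g : Finset V, g.card = r - 1 → ∑ e ∈ H with g ⊆ e, y e ≤ 1) :
    2 * ∑ e ∈ H, y e ≤ (r + 1) * ν := by
  -- a maximum packing
  obtain ⟨M₀, hM₀, hM₀p, hmax⟩ := exists_max_packing (r - 1) H
  obtain ⟨n, hn⟩ : ∃ n, n = M₀.card := ⟨_, rfl⟩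
  rw [← hn] at hmax
  have hnν : n ≤ ν := hn ▸ hν M₀ hM₀ hM₀p
  set W : Finset (Finset V) → ℝ := fun M => ∏ e ∈ M, y e with hW
  have hWpos : ∀ M ⊆ H, 0 < W M := fun M hM => prod_pos fun e he => hy e (hM he)
  obtain ⟨Z, hZ⟩ : ∃ Z, Z = ∑ M ∈ Mx (r - 1) n H, W M := ⟨_, rfl⟩
  have hZpos : 0 < Z := by
    rw [hZ]
    apply sum_pos
    · intro M hM
      exact hWpos M ((mem_Mx _ _ _).1 hM).1
    · exact ⟨M₀, (mem_Mx _ _ _).2 ⟨hM₀, hM₀p, hn.symm⟩⟩
  obtain ⟨S, hS⟩ : ∃ S, S = ∑ e ∈ H, y e := ⟨_, rfl⟩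
  rw [← hS]
  set c : Finset V → Finset V → ℝ := fun e f => (cc (r - 1) e f : ℝ) with hc
  -- upper bound
  have hup : ∀ M ∈ Mx (r - 1) n H, ∑ e ∈ H, y e * ∑ f ∈ M, c e f ≤ n * r := by
    intro M hM
    have hM' := (mem_Mx _ _ _).1 hM
    have h1 : ∑ e ∈ H, y e * ∑ f ∈ M, c e f = ∑ f ∈ M, ∑ e ∈ H, y e * c e f := by
      simp_rw [mul_sum]
      rw [sum_comm]
    rw [h1]
    have h2 : ∀ f ∈ M, ∑ e ∈ H, y e * c e f ≤ (r : ℝ) := fun f hf =>
      sum_cc_le hr H y hg (hH f (hM'.1 hf))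
    refine (sum_le_sum h2).trans ?_
    rw [sum_const, nsmul_eq_mul, hM'.2.2]
  -- lower bound
  have hlow : ∀ M ∈ Mx (r - 1) n H,
      2 * S - ∑ u ∈ M, ∑ e ∈ Kx (r - 1) n H (M.erase u), y e * (2 - c e u) ≤
        ∑ e ∈ H, y e * ∑ f ∈ M, c e f := by
    intro M hM
    have h1 : ∀ e ∈ H, y e * (2 - ∑ u ∈ M,
        (if e ∈ Kx (r - 1) n H (M.erase u) then 2 - c e u else 0)) ≤ y e * ∑ f ∈ M, c e f := by
      intro e he
      apply mul_le_mul_of_nonneg_left _ (hy e he).le
      exact lower hr hH hmax hM he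
    refine le_trans (le_of_eq ?_) (sum_le_sum h1)
    have h2 : ∀ e ∈ H, y e * (2 - ∑ u ∈ M,
        (if e ∈ Kx (r - 1) n H (M.erase u) then 2 - c e u else 0)) =
        2 * y e - ∑ u ∈ M, (if e ∈ Kx (r - 1) n H (M.erase u) then y e * (2 - c e u) else 0) := by
      intro e _
      rw [mul_sub, mul_sum]
      congr 1
      · ring
      · refine sum_congr rfl fun u _ => ?_
        split_ifs
        · rfl
        · simp
    rw [sum_congr rfl h2, sum_sub_distrib, ← mul_sum, sum_comm, ← hS]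
    congr 1
    refine sum_congr rfl fun u hu => ?_
    rw [← sum_filter]
    refine sum_congr ?_ fun _ _ => rfl
    ext e
    rw [mem_filter]
    constructor
    · intro h
      exact ⟨((mem_Kx _ _ _).1 h).1, h⟩
    · exact fun h => h.2
  -- combine
  have h1 : ∑ M ∈ Mx (r - 1) n H, W M * (2 * S - ∑ u ∈ M, ∑ e ∈ Kx (r - 1) n H (M.erase u),
      y e * (2 - c e u)) ≤ ∑ M ∈ Mx (r - 1) n H, W M * (n * r) := by
    refine sum_le_sum fun M hM => mul_le_mul_of_nonneg_left ((hlow M hM).trans (hup M hM))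
      (hWpos M ((mem_Mx _ _ _).1 hM).1).le
  have h2 : ∑ M ∈ Mx (r - 1) n H, W M * (2 * S - ∑ u ∈ M, ∑ e ∈ Kx (r - 1) n H (M.erase u),
      y e * (2 - c e u)) = 2 * S * Z - ∑ M ∈ Mx (r - 1) n H, ∑ u ∈ M,
        (W (M.erase u) * y u * ∑ e ∈ Kx (r - 1) n H (M.erase u), y e * (2 - c e u)) := by
    have h3 : ∀ M ∈ Mx (r - 1) n H, W M * (2 * S - ∑ u ∈ M, ∑ e ∈ Kx (r - 1) n H (M.erase u),
        y e * (2 - c e u)) = 2 * S * W M - ∑ u ∈ M,
        (W (M.erase u) * y u * ∑ e ∈ Kx (r - 1) n H (M.erase u), y e * (2 - c e u)) := by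
      intro M _
      rw [mul_sub, mul_sum]
      congr 1
      · ring
      · refine sum_congr rfl fun u hu => ?_
        have : W M = W (M.erase u) * y u := by
          simp only [hW]
          rw [mul_comm, mul_prod_erase M y hu]
        rw [this]
    rw [sum_congr rfl h3, sum_sub_distrib, ← mul_sum, ← hZ]
  have h4 := reindex (r - 1) n H (fun M' u => W M' * y u * ∑ e ∈ Kx (r - 1) n H M',
    y e * (2 - c e u))
  have h5 := reindex (r - 1) n H (fun M' u => W M' * y u)
  have h6 : ∑ M ∈ Mx (r - 1) n H, ∑ u ∈ M, W (M.erase u) * y u = n * Z := by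
    have h7 : ∀ M ∈ Mx (r - 1) n H, ∑ u ∈ M, W (M.erase u) * y u = n * W M := by
      intro M hM
      have h8 : ∀ u ∈ M, W (M.erase u) * y u = W M := by
        intro u hu
        simp only [hW]
        rw [mul_comm, mul_prod_erase M y hu]
      rw [sum_congr rfl h8, sum_const, nsmul_eq_mul, ((mem_Mx _ _ _).1 hM).2.2]
    rw [sum_congr rfl h7, ← mul_sum, ← hZ]
  have h7 : ∑ M' ∈ H.powerset, ∑ u ∈ Kx (r - 1) n H M', W M' * y u *
      ∑ e ∈ Kx (r - 1) n H M', y e * (2 - c e u) ≤
      ∑ M' ∈ H.powerset, ∑ u ∈ Kx (r - 1) n H M', W M' * y u := by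
    refine sum_le_sum fun M' hM' => ?_
    have hKH : Kx (r - 1) n H M' ⊆ H := fun u hu => ((mem_Kx _ _ _).1 hu).1
    have hq := clique_ineq hr (Kx (r - 1) n H M') (fun e he => hH e (hKH he))
      (fun e he f hf hne => conf_of_not hr hH hmax he hf hne) y
      (fun e he => (hy e (hKH he)).le) (fun g hgc => by
        refine le_trans ?_ (hg g hgc)
        refine sum_le_sum_of_subset_of_nonneg (filter_subset_filter _ hKH) fun i hi _ => ?_
        exact (hy i (mem_filter.1 hi).1).le)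
    have hWn : 0 ≤ W M' := (hWpos M' (mem_powerset.1 hM')).le
    calc ∑ u ∈ Kx (r - 1) n H M', W M' * y u * ∑ e ∈ Kx (r - 1) n H M', y e * (2 - c e u)
        = W M' * ∑ u ∈ Kx (r - 1) n H M', ∑ e ∈ Kx (r - 1) n H M', y u * y e * (2 - c e u) := by
          rw [mul_sum]
          refine sum_congr rfl fun u _ => ?_
          rw [mul_assoc, mul_sum]
          congr 1
          refine sum_congr rfl fun e _ => ?_
          ring
      _ ≤ W M' * ∑ u ∈ Kx (r - 1) n H M', y u := mul_le_mul_of_nonneg_left hq hWn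
      _ = ∑ u ∈ Kx (r - 1) n H M', W M' * y u := by rw [mul_sum]
  rw [h2, ← sum_mul] at h1
  have h8 : 2 * S * Z ≤ ((r + 1) * n) * Z := by
    rw [h4] at h1
    rw [h6] at h5
    rw [← h5] at h7
    rw [← hZ] at h1
    nlinarith [h1, h7]
  have h9 : 2 * S ≤ (r + 1) * n := le_of_mul_le_mul_right h8 hZpos
  have h10 : (n : ℝ) ≤ ν := by exact_mod_cast hnν
  have h11 : (0 : ℝ) ≤ r + 1 := by positivity
  nlinarith

end Pool.Agent.W795.AZ
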