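import Pool.Agent.W795.AZ.Gibbs
import Pool.Agent.Helper166.TuzaC

set_option autoImplicit false

namespace Pool.Agent.W795.AZ

open Finset

/-- Bound for all fractional packings (weights may vanish). -/
theorem packing_bound {V : Type*} [DecidableEq V] {r : ℕ} (hr : 2 ≤ r) (H : Finset (Finset V))
    (hH : ∀ e ∈ H, e.card = r) (ν : ℕ) (hν : ∀ M ⊆ H, IsPacking (r - 1) M → M.card ≤ ν)
    (y : Finset V → ℝ) (hy : ∀ e ∈ H, 0 ≤ y e)
    (hg : ∀ g : Finset V, g.card = r - 1 → ∑ e ∈ H with g ⊆ e, y e ≤ 1) :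
    2 * ∑ e ∈ H, y e ≤ (r + 1) * ν := by
  classical
  have hsub : H.filter (fun e => 0 < y e) ⊆ H := filter_subset _ _
  have h := core hr (H.filter (fun e => 0 < y e)) (fun e he => hH e (hsub he)) ν
    (fun M hM hp => hν M (hM.trans hsub) hp) y (fun e he => (mem_filter.1 he).2) (by
      intro g hgc
      refine le_trans ?_ (hg g hgc)
      refine sum_le_sum_of_subset_of_nonneg (filter_subset_filter _ hsub) fun i hi _ => ?_
      exact hy i (mem_filter.1 hi).1)
  have h2 : ∑ e ∈ H.filter (fun e => 0 < y e), y e = ∑ e ∈ H, y e := by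
    refine sum_subset hsub fun e he hne => ?_
    rw [mem_filter, not_and] at hne
    exact le_antisymm (not_lt.1 (hne he)) (hy e he)
  rwa [h2] at h

/-- The `(r-1)`-sets contained in edges. -/
def facets {V : Type*} [DecidableEq V] (r : ℕ) (H : Finset (Finset V)) : Finset (Finset V) :=
  H.biUnion (fun e => e.powersetCard (r - 1))

theorem cover_exists {V : Type} [DecidableEq V] {r : ℕ} (hr : 2 ≤ r) (H : Finset (Finset V))
    (hH : ∀ e ∈ H, e.card = r) (ν : ℕ) (hν : ∀ M ⊆ H, IsPacking (r - 1) M → M.card ≤ ν) :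
    ∃ w : Finset V → ℝ, (∀ g, 0 ≤ w g) ∧ (∀ e ∈ H, 1 ≤ ∑ g ∈ e.powersetCard (r - 1), w g) ∧
      ∑ g ∈ facets r H, w g ≤ (r + 1) / 2 * ν := by
  classical
  let P := {g // g ∈ facets r H}
  let T := {e // e ∈ H}
  let A : P → T → ℝ := fun p s => if p.1 ⊆ s.1 then 1 else 0
  have hA : ∀ p s, 0 ≤ A p s := fun p s => by
    simp only [A]; split_ifs <;> norm_num
  have hPcard : ∀ p : P, p.1.card = r - 1 := by
    rintro ⟨g, hg⟩
    rw [facets, mem_biUnion] at hg
    obtain ⟨e, _, he⟩ := hg
    exact (mem_powersetCard.1 he).2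
  -- sums over `P` of `A p s * w p`
  have hAsum : ∀ (s : T) (w : Finset V → ℝ), ∑ p : P, A p s * w p.1
      = ∑ g ∈ s.1.powersetCard (r - 1), w g := by
    intro s w
    have h1 : ∑ p : P, A p s * w p.1 = ∑ g ∈ facets r H, (if g ⊆ s.1 then w g else 0) := by
      rw [← sum_attach (facets r H)]
      refine sum_congr rfl fun p _ => ?_
      simp only [A]
      split_ifs <;> simp
    rw [h1, ← sum_filter]
    refine sum_congr ?_ fun _ _ => rfl
    ext g
    rw [mem_filter, mem_powersetCard, facets, mem_biUnion]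
    constructor
    · rintro ⟨⟨e, _, he⟩, hgs⟩
      exact ⟨hgs, (mem_powersetCard.1 he).2⟩
    · rintro ⟨h1, h2⟩
      exact ⟨⟨s.1, s.2, mem_powersetCard.2 ⟨h1, h2⟩⟩, h1⟩
  -- an optimal fractional cover
  let C : Set (P → ℝ) := {w | (∀ p, w p ∈ Set.Icc (0 : ℝ) 1) ∧ ∀ s, 1 ≤ ∑ p, A p s * w p}
  have hCcomp : IsCompact C := by
    have h1 : C = Set.pi Set.univ (fun _ : P => Set.Icc (0 : ℝ) 1) ∩
        ⋂ s : T, {w : P → ℝ | 1 ≤ ∑ p, A p s * w p} := by
      ext w
      simp only [C, Set.mem_setOf_eq, Set.mem_inter_iff, Set.mem_pi, Set.mem_univ,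
        forall_true_left, Set.mem_iInter]
    rw [h1]
    refine (isCompact_univ_pi fun _ => isCompact_Icc).inter_right ?_
    refine isClosed_iInter fun s => ?_
    exact isClosed_le continuous_const (by fun_prop)
  have hCne : C.Nonempty := by
    refine ⟨fun _ => 1, fun p => ⟨zero_le_one, le_rfl⟩, fun s => ?_⟩
    have h1 := hAsum s (fun _ => 1)
    simp only [mul_one] at h1 ⊢
    rw [h1, sum_const, nsmul_eq_mul, mul_one, card_powersetCard, hH s.1 s.2]
    have h2 : 0 < r.choose (r - 1) := Nat.choose_pos (by omega)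
    exact_mod_cast h2
  obtain ⟨w₀, hw₀C, hw₀⟩ := hCcomp.exists_isMinOn hCne
    (f := fun w : P → ℝ => ∑ p, w p) (by fun_prop)
  set v := ∑ p, w₀ p with hv
  have hvmin : ∀ w : P → ℝ, (∀ p, 0 ≤ w p) → (∀ s, 1 ≤ ∑ p, A p s * w p) →
      v ≤ ∑ p, w p * (fun _ : P => (1 : ℝ)) p := by
    intro w hw hcov
    have h1 : (fun p => min (w p) 1) ∈ C := by
      refine ⟨fun p => ⟨le_min (hw p) zero_le_one, min_le_right _ _⟩, fun s => ?_⟩
      by_cases hbig : ∃ p, A p s = 1 ∧ 1 < w p
      · obtain ⟨p, hp1, hp2⟩ := hbig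
        have h2 : A p s * min (w p) 1 ≤ ∑ p, A p s * min (w p) 1 :=
          single_le_sum (f := fun p => A p s * min (w p) 1)
            (fun q _ => mul_nonneg (hA q s) (le_min (hw q) zero_le_one)) (mem_univ p)
        rw [hp1, min_eq_right hp2.le, mul_one] at h2
        exact h2
      · push Not at hbig
        refine (hcov s).trans (le_of_eq (sum_congr rfl fun p _ => ?_))
        by_cases hps : p.1 ⊆ s.1
        · have hA1 : A p s = 1 := by simp only [A, hps, if_true]
          show A p s * w p = A p s * min (w p) 1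
          rw [min_eq_left (hbig p hA1)]
        · have hA0 : A p s = 0 := by simp only [A, hps, if_false]
          show A p s * w p = A p s * min (w p) 1
          rw [hA0, zero_mul, zero_mul]
    have h2 : v ≤ ∑ p, min (w p) 1 := hw₀ h1
    refine h2.trans (sum_le_sum fun p _ => ?_)
    simp only [mul_one]
    exact min_le_left _ _
  have hbound : v ≤ (r + 1) / 2 * ν := by
    have hkey : ∀ ε : ℝ, 0 < ε → v - ε ≤ (1 + ε) * ((r + 1) / 2 * ν) := by
      intro ε hε
      obtain ⟨z, hz0, hz1, hz2⟩ := Pool.Agent.Helper166.Tuza.lp_approx A hA (fun _ => (1 : ℝ))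
        (fun _ => zero_le_one) v hvmin hε
      have h1ε : (0 : ℝ) < 1 + ε := by linarith
      let y : Finset V → ℝ := fun e => if h : e ∈ H then z ⟨e, h⟩ / (1 + ε) else 0
      have hyz : ∀ s : T, y s.1 = z s / (1 + ε) := by
        intro s
        simp only [y, s.2, dif_pos]
        rfl
      have hysum : ∀ (p : Finset V → Prop) [DecidablePred p],
          ∑ e ∈ H with p e, y e = (∑ s : T, if p s.1 then z s else 0) / (1 + ε) := by
        intro p _
        rw [sum_filter, ← sum_attach H, sum_div]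
        refine sum_congr rfl fun s _ => ?_
        rw [ite_div, zero_div, ← hyz s]
      have hb := packing_bound hr H hH ν hν y (fun e he => by
        simp only [y, he, dif_pos]
        exact div_nonneg (hz0 _) h1ε.le) (by
        intro g hgc
        rw [hysum (fun e => g ⊆ e), div_le_one h1ε]
        by_cases hgf : g ∈ facets r H
        · refine le_trans (le_of_eq ?_) (hz1 ⟨g, hgf⟩).le
          refine sum_congr rfl fun s _ => ?_
          simp only [A]
          split_ifs <;> simp
        · have h0 : ∑ s : T, (if g ⊆ s.1 then z s else 0) = 0 := by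
            refine sum_eq_zero fun s _ => ?_
            rw [if_neg]
            intro hgs
            exact hgf (by
              rw [facets, mem_biUnion]
              exact ⟨s.1, s.2, mem_powersetCard.2 ⟨hgs, hgc⟩⟩)
          rw [h0]
          exact h1ε.le)
      have htot : ∑ e ∈ H, y e = (∑ s, z s) / (1 + ε) := by
        have := hysum (fun _ => True)
        simpa using this
      rw [htot] at hb
      have h3 : ∑ s, z s ≤ (1 + ε) * ((r + 1) / 2 * ν) := by
        have h4 : (∑ s, z s) / (1 + ε) ≤ (r + 1) / 2 * ν := by linarith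
        rw [div_le_iff₀ h1ε] at h4
        linarith
      linarith
    by_contra hcon
    push Not at hcon
    set B := ((r : ℝ) + 1) / 2 * ν with hB
    have hB0 : 0 ≤ B := by positivity
    have h1 := hkey ((v - B) / (2 * (1 + B))) (by
      apply div_pos (by linarith) (by linarith))
    have h2 : (v - B) / (2 * (1 + B)) * (1 + B) = (v - B) / 2 := by
      field_simp
    nlinarith
  refine ⟨fun g => if h : g ∈ facets r H then w₀ ⟨g, h⟩ else 0, fun g => ?_, fun e he => ?_, ?_⟩
  · dsimp only
    split_ifs with h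
    · exact (hw₀C.1 _).1
    · exact le_rfl
  · have h1 := hw₀C.2 ⟨e, he⟩
    have h2 := hAsum ⟨e, he⟩ (fun g => if h : g ∈ facets r H then w₀ ⟨g, h⟩ else 0)
    simp only at h2
    rw [← h2]
    refine h1.trans (le_of_eq (sum_congr rfl fun p _ => ?_))
    simp only [p.2, dif_pos]
    rfl
  · refine le_trans (le_of_eq ?_) hbound
    rw [hv, ← sum_attach (facets r H)]
    refine sum_congr rfl fun p _ => ?_
    simp only [p.2, dif_pos]

end Pool.Agent.W795.AZ
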