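import Pool.Agent.W795.AZ.Main

set_option autoImplicit false

namespace Pool.Agent.W795.AZ

open Finset

/-- packings in the complete `r`-graph on `r+1` points have at most one member -/
theorem complete_packing {r : ℕ} (hr : 2 ≤ r) (M : Finset (Finset (Fin (r + 1))))
    (hM : M ⊆ (univ : Finset (Fin (r + 1))).powersetCard r) (hp : IsPacking (r - 1) M) :
    M.card ≤ 1 := by
  rw [card_le_one]
  intro e he f hf
  by_contra hne
  have h1 := hp e he f hf hne
  have he' := (mem_powersetCard.1 (hM he)).2
  have hf' := (mem_powersetCard.1 (hM hf)).2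
  have h2 := card_union_add_card_inter e f
  have h3 : (e ∪ f).card ≤ r + 1 := by
    have := card_le_univ (e ∪ f)
    rwa [Fintype.card_fin] at this
  omega

theorem complete_cover {r : ℕ} (hr : 2 ≤ r) (w : Finset (Fin (r + 1)) → ℝ)
    (hcov : ∀ e ∈ (univ : Finset (Fin (r + 1))).powersetCard r,
      1 ≤ ∑ g ∈ e.powersetCard (r - 1), w g) :
    ((r : ℝ) + 1) / 2 ≤ ∑ g ∈ facets r ((univ : Finset (Fin (r + 1))).powersetCard r), w g := by
  classical
  set H := (univ : Finset (Fin (r + 1))).powersetCard r with hH
  have h1 : ((r : ℝ) + 1) ≤ ∑ e ∈ H, ∑ g ∈ e.powersetCard (r - 1), w g := by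
    have h2 := sum_le_sum hcov
    rw [sum_const, nsmul_eq_mul, mul_one, card_powersetCard, card_univ, Fintype.card_fin,
      Nat.choose_succ_self_right] at h2
    push_cast at h2
    exact h2
  have h2 : ∀ e ∈ H, ∑ g ∈ e.powersetCard (r - 1), w g
      = ∑ g ∈ facets r H, if g ⊆ e then w g else 0 := by
    intro e he
    rw [← sum_filter]
    refine sum_congr ?_ fun _ _ => rfl
    ext g
    rw [mem_filter, mem_powersetCard, facets, mem_biUnion]
    constructor
    · rintro ⟨h1, h2⟩
      exact ⟨⟨e, he, mem_powersetCard.2 ⟨h1, h2⟩⟩, h1⟩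
    · rintro ⟨⟨e', _, he'⟩, hgs⟩
      exact ⟨hgs, (mem_powersetCard.1 he').2⟩
  rw [sum_congr rfl h2, sum_comm] at h1
  have h3 : ∀ g ∈ facets r H, ∑ e ∈ H, (if g ⊆ e then w g else 0) = 2 * w g := by
    intro g hg
    rw [facets, mem_biUnion] at hg
    obtain ⟨e', _, he'⟩ := hg
    have hgc := (mem_powersetCard.1 he').2
    rw [← sum_filter, sum_const, nsmul_eq_mul]
    have h4 : (H.filter fun e => g ⊆ e) = (gᶜ).image (fun x => insert x g) := by
      ext e
      rw [mem_filter, hH, mem_powersetCard, mem_image]
      constructor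
      · rintro ⟨⟨_, hec⟩, hge⟩
        have h5 : (e \ g).card = 1 := by
          have := card_sdiff_add_card_inter e g
          rw [inter_eq_right.2 hge] at this
          omega
        obtain ⟨x, hx⟩ := card_eq_one.1 h5
        have hxe : x ∈ e \ g := by rw [hx]; exact mem_singleton_self x
        refine ⟨x, mem_compl.2 (mem_sdiff.1 hxe).2, ?_⟩
        have h6 : e = (e \ g) ∪ g := (sdiff_union_of_subset hge).symm
        rw [h6, hx]
        rfl
      · rintro ⟨x, hx, rfl⟩
        rw [mem_compl] at hx
        refine ⟨⟨subset_univ _, ?_⟩, subset_insert _ _⟩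
        rw [card_insert_of_notMem hx, hgc]
        omega
    rw [h4, card_image_of_injOn, card_compl, Fintype.card_fin, hgc]
    · have h5 : r + 1 - (r - 1) = 2 := by omega
      rw [h5]
      norm_num
    · intro x hx y hy hxy
      have hx' : x ∉ g := mem_compl.1 (mem_coe.1 hx)
      have hxy' : insert x g = insert y g := hxy
      have h5 : x ∈ insert y g := by rw [← hxy']; exact mem_insert_self _ _
      rcases mem_insert.1 h5 with h | h
      · exact h
      · exact absurd h hx'
  rw [sum_congr rfl h3, ← mul_sum] at h1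
  linarith

end Pool.Agent.W795.AZ
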